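import Pool.Agent.H57.SC.Targets

/-! MP_eb32d7_co, the Hall step of the main lemma. -/

set_option autoImplicit false

namespace Pool.Agent.H89.SC

open Finset Pool.Agent.H57.SC

theorem pf_hl : T_HL := by
  classical
  intro W C B _ _ _ _ _ _ cyc blk adj Q f hf hall
  let σ := Σ b : B, Fin (dem Q b)
  let t : σ → Finset C := fun s => univ.filter (fun c => ∃ x, Al cyc blk adj Q c x ∧ blk x = s.1)
  have hH : ∀ T : Finset σ, T.card ≤ (T.biUnion t).card := by
    intro T
    have h1 : T.card ≤ ∑ b ∈ T.image Sigma.fst, dem Q b := by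
      have hsub : T ⊆ (T.image Sigma.fst).sigma (fun b => (univ : Finset (Fin (dem Q b)))) := by
        intro s hs
        rw [Finset.mem_sigma]
        exact ⟨Finset.mem_image_of_mem _ hs, Finset.mem_univ _⟩
      refine (Finset.card_le_card hsub).trans (le_of_eq ?_)
      rw [Finset.card_sigma]
      exact Finset.sum_congr rfl fun b _ => by rw [Finset.card_univ, Fintype.card_fin]
    refine h1.trans ((hall _).trans (Finset.card_le_card ?_))
    intro c hc
    simp only [Cov, Finset.mem_filter, Finset.mem_univ, true_and, Finset.mem_image] at hc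
    obtain ⟨x, hx, s, hs, hsx⟩ := hc
    rw [Finset.mem_biUnion]
    refine ⟨s, hs, ?_⟩
    simp only [t, Finset.mem_filter, Finset.mem_univ, true_and]
    exact ⟨x, hx, hsx.symm⟩
  obtain ⟨g, hg1, hg2⟩ := (Finset.all_card_le_biUnion_card_iff_exists_injective t).1 hH
  have hg3 : ∀ s : σ, ∃ x, Al cyc blk adj Q (g s) x ∧ blk x = s.1 := by
    intro s
    have := hg2 s
    simpa only [t, Finset.mem_filter, Finset.mem_univ, true_and] using this
  choose X hX1 hX2 using hg3
  let f' : C → W := fun c => if h : ∃ s, g s = c then X h.choose else f c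
  have hf'g : ∀ s, f' (g s) = X s := by
    intro s
    have h : ∃ s', g s' = g s := ⟨s, rfl⟩
    have he : h.choose = s := hg1 h.choose_spec
    simp only [f', dif_pos h]
    rw [he]
  refine ⟨f', ⟨?_, ?_⟩⟩
  · intro c
    by_cases h : ∃ s, g s = c
    · obtain ⟨s, rfl⟩ := h
      rw [hf'g]
      exact hX1 s
    · simp only [f', dif_neg h]
      exact hf c
  · intro b
    have hinj : Function.Injective (fun i : Fin (dem Q b) => g ⟨b, i⟩) := by
      intro i j hij
      have h2 := hg1 hij
      exact eq_of_heq (Sigma.mk.inj h2).2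
    have hsub : (univ : Finset (Fin (dem Q b))).image (fun i => g ⟨b, i⟩) ⊆
        univ.filter (fun c => blk (f' c) = b) := by
      intro c hc
      rw [Finset.mem_image] at hc
      obtain ⟨i, -, rfl⟩ := hc
      rw [Finset.mem_filter]
      refine ⟨Finset.mem_univ _, ?_⟩
      rw [hf'g]
      exact hX2 _
    have := Finset.card_le_card hsub
    rw [Finset.card_image_of_injective _ hinj, Finset.card_univ, Fintype.card_fin] at this
    unfold cn
    refine this.trans (le_of_eq ?_)
    congr

end Pool.Agent.H89.SC
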