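import Pool.Agent.H85.SC.Targets

/-!
# The limit formula for the stations of a node (MP_de9001_an, module NOD)
-/

open Filter Topology

namespace Pool.Agent.H89.SC

open Pool.Agent.H87.Synth
open Pool.Agent.H85.SC

theorem act_sub {M : ℤ → ℂ} {f f' x x' : L1} (h : Act M f x) (h' : Act M f' x') : Act M (f - f') (x - x') := by
  intro z
  rw [coeff_sub, coeff_sub, h z, h' z]
  ring

theorem act_comp {M M' : ℤ → ℂ} {f x y : L1} (h : Act M f x) (h' : Act M' x y) : Act (fun z => M' z * M z) f y := by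
  intro z
  rw [h' z, h z]
  ring

/-- a functional at a trigonometric polynomial -/
theorem fun_poly (Λ : L1 →L[ℂ] ℂ) {M : ℤ → ℂ} {f p : L1} (h : Act M f p) (N : ℤ)
    (hM : ∀ z, N ≤ |z| → M z = 0) :
    Λ p = ∑ z ∈ Finset.Ioo (-N) N, M z * (coeff f z * Λ (ex z)) := by
  have hp : p = ∑ z ∈ Finset.Ioo (-N) N, (M z * coeff f z) • ex z := by
    refine ext_coeff fun m => ?_
    rw [coeff_sum, h m]
    simp only [coeff_smul, coeff_ex]
    by_cases hm : m ∈ Finset.Ioo (-N) N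
    · rw [Finset.sum_eq_single m]
      · simp
      · intro b _ hb
        rw [if_neg hb, mul_zero]
      · intro hh; exact absurd hm hh
    · have h0 : M m = 0 := by
        refine hM m ?_
        by_contra hh
        rw [not_le, abs_lt] at hh
        exact hm (Finset.mem_Ioo.2 hh)
      rw [h0, zero_mul]
      symm
      refine Finset.sum_eq_zero fun b hb => ?_
      rw [if_neg (fun hh : b = m => hm (hh ▸ hb)), mul_zero]
  conv_lhs => rw [hp]
  rw [map_sum]
  refine Finset.sum_congr rfl fun z _ => ?_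
  rw [map_smul, smul_eq_mul]
  ring

theorem slot_tendsto (n : ℕ) (i : ℕ → ℕ) (hi : ∀ a, a ≤ i a) : Tendsto (fun a => slot n (i a)) atTop atTop := by
  refine tendsto_atTop_mono (fun a => ?_) tendsto_id
  unfold slot
  have := hi a
  simp only [id]
  nlinarith

theorem nod (hTEL : T_TEL) (hSUP : T_SUP) (hSUX : T_SUX) (hRLS : T_RLS) (hAPM : T_APM) (hTRP : T_TRP)
    (hVLM : T_VLM) (hMUL : T_MUL) (hVVS : T_VVS) (hNNA : T_NNA) : T_NOD := by
  intro S hS Λ f hK hf n hn x y hx hy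
  obtain ⟨hMnn, -, hMadd, -, -, -, -, hMex, hMbd, -⟩ := hMUL
  obtain ⟨-, -, hAinh, hAing, -, hAtr⟩ := hAPM
  obtain ⟨-, hTR⟩ := hTRP
  set g : ℤ → ℂ := fun z => coeff f z * Λ (ex z) with hg
  have hR : Rels S g := hRLS S hS Λ f hK hf
  have hxy : Act (fun z => ind (inh n) z + ind (ing n) z) f (x + y) := fun z => by
    rw [coeff_add, hx z, hy z]; ring
  choose F hF _ using fun r => hMex _ _ (hTR r) f
  have hMs : MulB (fun z => ind (inh n) z + ind (ing n) z) (1 + 1) := hMadd _ _ _ _ (hAinh n) (hAing n)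
  choose P hP _ using fun r => hMex _ _ hMs (F r)
  obtain ⟨C, hC⟩ := hAtr n
  choose Q hQ _ using fun (a r : ℕ) => hMex _ _ (hC a) (F r - F (r - 1))
  have hC0 : 0 ≤ C := hMnn _ _ (hC 0)
  -- limits
  have limF : Tendsto F atTop (𝓝 f) := by
    rw [Metric.tendsto_atTop]
    intro ε hε
    obtain ⟨R, hR⟩ := hVLM f ε hε
    exact ⟨R, fun r hr => by rw [dist_eq_norm]; exact hR r hr _ (hF r)⟩
  have limP : Tendsto P atTop (𝓝 (x + y)) := by
    rw [tendsto_iff_norm_sub_tendsto_zero]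
    have h1 : Tendsto (fun r => (1 + 1 : ℝ) * ‖F r - f‖) atTop (𝓝 0) := by
      have := (tendsto_iff_norm_sub_tendsto_zero.1 limF).const_mul (1 + 1 : ℝ)
      rwa [mul_zero] at this
    exact squeeze_zero (fun r => norm_nonneg _) (fun r => hMbd _ _ hMs _ _ (act_sub (hP r) hxy)) h1
  have limD : Tendsto (fun r => C * ‖F r - F (r - 1)‖) atTop (𝓝 0) := by
    have h1 : Tendsto (fun r => F (r - 1)) atTop (𝓝 f) := limF.comp (tendsto_sub_atTop_nat 1)
    have h2 := ((limF.sub h1).norm).const_mul C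
    rwa [sub_self, norm_zero, mul_zero] at h2
  have hi1 : ∀ a : ℕ, a ≤ 2 ^ (a + 1) - 1 := fun a => by
    have := Nat.lt_two_pow_self (n := a + 1)
    omega
  have hi2 : ∀ a : ℕ, a ≤ 2 ^ a := fun a => Nat.lt_two_pow_self.le
  have limP' : Tendsto (fun a => Λ (P (slot n (2 ^ (a + 1) - 1)))) atTop (𝓝 (Λ (x + y))) :=
    (Λ.continuous.tendsto _).comp (limP.comp (slot_tendsto n _ hi1))
  have limQ : Tendsto (fun a => Q a (slot n (2 ^ a))) atTop (𝓝 0) := by
    rw [tendsto_zero_iff_norm_tendsto_zero]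
    exact squeeze_zero (fun a => norm_nonneg _) (fun a => hMbd _ _ (hC a) _ _ (hQ a _))
      (limD.comp (slot_tendsto n _ hi2))
  have limQ' : Tendsto (fun a => Λ (Q a (slot n (2 ^ a)))) atTop (𝓝 0) := by
    have := (Λ.continuous.tendsto _).comp limQ
    rwa [map_zero] at this
  -- values
  have vP : ∀ a, Nat.size n ≤ a → Λ (P (slot n (2 ^ (a + 1) - 1))) =
      ∑ i ∈ Finset.Ico (2 ^ Nat.size n) (2 ^ (a + 1)), ∑ z ∈ RS n i, g z := by
    intro a ha
    rw [← hSUP S hS g hR.1 n hn a ha _ rfl]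
    have h1 := act_comp (hF (slot n (2 ^ (a + 1) - 1))) (hP (slot n (2 ^ (a + 1) - 1)))
    refine fun_poly Λ h1 _ fun z hz => ?_
    rw [hVVS.2.1 _ z hz]
    simp
  have vQ : ∀ a, Nat.size n ≤ a → Λ (Q a (slot n (2 ^ a))) = gS g n (2 ^ a) := by
    intro a ha
    rw [← hSUX S hS g hR.1 n hn a ha _ rfl]
    have hr1 : 1 ≤ slot n (2 ^ a) := by
      unfold slot
      have : 1 ≤ (2 ^ a) ^ 2 := Nat.one_le_pow _ _ (by positivity)
      omega
    have h0 : Act (fun z => (VV (slot n (2 ^ a)) z : ℂ) - VV (slot n (2 ^ a) - 1) z) f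
        (F (slot n (2 ^ a)) - F (slot n (2 ^ a) - 1)) := by
      intro z
      rw [coeff_sub, hF, hF]
      ring
    have h1 := act_comp h0 (hQ a (slot n (2 ^ a)))
    refine fun_poly Λ h1 _ fun z hz => ?_
    have h2 : (NN (slot n (2 ^ a) - 1 + 1) : ℤ) ≤ |z| := by
      have h3 : slot n (2 ^ a) - 1 + 1 = slot n (2 ^ a) := by omega
      rw [h3]
      have h4 := hNNA.2.1 (slot n (2 ^ a))
      have h5 : (NN (slot n (2 ^ a)) : ℤ) ≤ NN (slot n (2 ^ a) + 1) := by exact_mod_cast (by omega)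
      exact h5.trans hz
    rw [hVVS.2.1 _ z hz, hVVS.2.1 _ z h2]
    simp
  have main : ∀ a, Nat.size n ≤ a → -∑ b ∈ kids S n (a + 1), gA g (n + 2 ^ b) (2 ^ (b + 1)) =
      Λ (P (slot n (2 ^ (a + 1) - 1))) - gA g n (2 ^ Nat.size n) - Λ (Q a (slot n (2 ^ a))) := by
    intro a ha
    rw [vP a ha, vQ a ha, hTEL S hS g hR n hn a ha]
    ring
  rw [← tendsto_add_atTop_iff_nat 1]
  have hfin : Tendsto (fun a => Λ (P (slot n (2 ^ (a + 1) - 1))) - gA g n (2 ^ Nat.size n) -
      Λ (Q a (slot n (2 ^ a)))) atTop (𝓝 (Λ x + Λ y - gA g n (2 ^ Nat.size n))) := by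
    have := (limP'.sub_const (gA g n (2 ^ Nat.size n))).sub limQ'
    rwa [sub_zero, map_add] at this
  refine hfin.congr' ?_
  filter_upwards [eventually_ge_atTop (Nat.size n)] with a ha
  exact (main a ha).symm

end Pool.Agent.H89.SC
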